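import Mathlib
import Pool.Agent.Helper4.BJY.Defs

/-!
# Block COL: the counting lemma for colourings
-/

set_option autoImplicit false

namespace BJY

open Finset

theorem h26_base (k : ℕ) (hk : 1 ≤ k) : (1 - 1 / (k : ℝ)) ^ k ≤ 1 / 2 := by
  have h1 : (1 - 1 / (k : ℝ)) ^ k ≤ Real.exp (-1) :=
    Real.one_sub_div_pow_le_exp_neg (by exact_mod_cast hk)
  have h2 : Real.exp (-1) ≤ 1 / 2 := by
    rw [Real.exp_neg, one_div]
    apply inv_anti₀ (by norm_num)
    have := Real.add_one_le_exp (1 : ℝ)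
    linarith
  exact h1.trans h2

theorem h26_ineq (k : ℕ) (hk : 1 ≤ k) (u x t : ℕ) (hx : k * t ≤ x) (hu : x ≤ u) :
    ((k - 1 : ℕ) : ℝ) ^ x * (k : ℝ) ^ (u - x) ≤ (k : ℝ) ^ u * (1 / 2 : ℝ) ^ t := by
  have hk0 : (0 : ℝ) < k := by exact_mod_cast hk
  have hk1 : ((k - 1 : ℕ) : ℝ) = k * (1 - 1 / (k : ℝ)) := by
    rw [Nat.cast_sub hk]
    field_simp
    simp
  have h0 : (0 : ℝ) ≤ 1 - 1 / (k : ℝ) := by
    have : 1 / (k : ℝ) ≤ 1 := by
      rw [div_le_one hk0]
      exact_mod_cast hk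
    linarith
  have h1 : (1 : ℝ) - 1 / (k : ℝ) ≤ 1 := by
    have : 0 ≤ 1 / (k : ℝ) := by positivity
    linarith
  have e1 : ((k - 1 : ℕ) : ℝ) ^ x * (k : ℝ) ^ (u - x) =
      (k : ℝ) ^ u * (1 - 1 / (k : ℝ)) ^ x := by
    rw [hk1, mul_pow]
    have : (k : ℝ) ^ u = (k : ℝ) ^ x * (k : ℝ) ^ (u - x) := by
      rw [← pow_add]
      congr 1
      omega
    rw [this]
    ring
  rw [e1]
  apply mul_le_mul_of_nonneg_left _ (by positivity)
  calc (1 - 1 / (k : ℝ)) ^ x ≤ (1 - 1 / (k : ℝ)) ^ (k * t) :=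
        pow_le_pow_of_le_one h0 h1 hx
    _ = ((1 - 1 / (k : ℝ)) ^ k) ^ t := by rw [pow_mul]
    _ ≤ (1 / 2 : ℝ) ^ t := pow_le_pow_left₀ (pow_nonneg h0 _) (h26_base k hk) t

theorem col_family {α κ : Type*} [DecidableEq α] (k : ℕ) (hk : 1 ≤ k) (I : Finset κ)
    (X : κ → Finset α) (t : κ → ℕ) (hX : ∀ i ∈ I, k * t i ≤ (X i).card)
    (hsum : ∑ i ∈ I, (k : ℝ) * (1 / 2 : ℝ) ^ (t i) < 1) :
    ∃ f : α → ℕ, ∀ c < k, ∀ i ∈ I, ∃ a ∈ X i, f a = c := by
  classical
  set U : Finset α := I.biUnion X with hU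
  have hXU : ∀ i ∈ I, X i ⊆ U := fun i hi => Finset.subset_biUnion_of_mem X hi
  -- the bad colourings
  let bad : κ × Fin k → Finset (U → Fin k) := fun p =>
    Fintype.piFinset (fun a : U => if a.1 ∈ X p.1 then Finset.univ.erase p.2 else Finset.univ)
  have hbad : ∀ p : κ × Fin k, p.1 ∈ I →
      ((bad p).card : ℝ) ≤ (k : ℝ) ^ U.card * (1 / 2 : ℝ) ^ (t p.1) := by
    rintro ⟨i, c⟩ hi
    have h1 : (bad (i, c)).card = (k - 1) ^ (X i).card * k ^ (U.card - (X i).card) := by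
      rw [Fintype.card_piFinset]
      have h2 : ∀ a : U, (if a.1 ∈ X i then Finset.univ.erase c else (Finset.univ : Finset (Fin k))).card
          = if a.1 ∈ X i then k - 1 else k := by
        intro a
        split_ifs
        · rw [Finset.card_erase_of_mem (Finset.mem_univ c), Finset.card_univ, Fintype.card_fin]
        · rw [Finset.card_univ, Fintype.card_fin]
      rw [Finset.prod_congr rfl fun a _ => h2 a]
      rw [Finset.prod_coe_sort U (fun a => if a ∈ X i then k - 1 else k)]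
      rw [Finset.prod_ite, Finset.prod_const, Finset.prod_const]
      have h3 : U.filter (fun a => a ∈ X i) = X i := by
        ext a
        rw [Finset.mem_filter]
        exact ⟨fun h => h.2, fun h => ⟨hXU i hi h, h⟩⟩
      have h4 : (U.filter (fun a => a ∉ X i)).card = U.card - (X i).card := by
        have h5 := Finset.card_filter_add_card_filter_not (s := U) (fun a => a ∈ X i)
        rw [h3] at h5
        omega
      rw [h3, h4]
    rw [h1]
    push_cast
    exact h26_ineq k hk U.card (X i).card (t i) (hX i hi) (Finset.card_le_card (hXU i hi))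
  have hlt : ((I ×ˢ (Finset.univ : Finset (Fin k))).biUnion bad).card < Fintype.card (U → Fin k) := by
    have h1 : (((I ×ˢ (Finset.univ : Finset (Fin k))).biUnion bad).card : ℝ) ≤
        ∑ p ∈ I ×ˢ (Finset.univ : Finset (Fin k)), (k : ℝ) ^ U.card * (1 / 2 : ℝ) ^ (t p.1) := by
      calc (((I ×ˢ (Finset.univ : Finset (Fin k))).biUnion bad).card : ℝ)
          ≤ ∑ p ∈ I ×ˢ (Finset.univ : Finset (Fin k)), ((bad p).card : ℝ) := by
            exact_mod_cast Finset.card_biUnion_le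
        _ ≤ _ := Finset.sum_le_sum fun p hp => hbad p (Finset.mem_product.mp hp).1
    have h2 : ∑ p ∈ I ×ˢ (Finset.univ : Finset (Fin k)), (k : ℝ) ^ U.card * (1 / 2 : ℝ) ^ (t p.1)
        = (k : ℝ) ^ U.card * ∑ i ∈ I, (k : ℝ) * (1 / 2 : ℝ) ^ (t i) := by
      rw [Finset.sum_product, Finset.mul_sum]
      apply Finset.sum_congr rfl
      intro i _
      change ∑ _y : Fin k, (k : ℝ) ^ U.card * (1 / 2 : ℝ) ^ (t i) = _
      rw [Finset.sum_const, Finset.card_univ, Fintype.card_fin, nsmul_eq_mul]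
      ring
    have h3 : (Fintype.card (U → Fin k) : ℝ) = (k : ℝ) ^ U.card := by
      rw [Fintype.card_fun, Fintype.card_fin, Fintype.card_coe]
      push_cast
      rfl
    have hk0 : (0 : ℝ) < (k : ℝ) ^ U.card := by
      have : (0 : ℝ) < k := by exact_mod_cast hk
      positivity
    have h4 : (((I ×ˢ (Finset.univ : Finset (Fin k))).biUnion bad).card : ℝ) <
        (Fintype.card (U → Fin k) : ℝ) := by
      rw [h3]
      calc _ ≤ _ := h1
        _ = _ := h2
        _ < (k : ℝ) ^ U.card * 1 := by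
            exact mul_lt_mul_of_pos_left hsum hk0
        _ = _ := mul_one _
    exact_mod_cast h4
  obtain ⟨g, hg⟩ : ∃ g : U → Fin k, g ∉ (I ×ˢ (Finset.univ : Finset (Fin k))).biUnion bad := by
    by_contra hcon
    push Not at hcon
    have h1 : (I ×ˢ (Finset.univ : Finset (Fin k))).biUnion bad = Finset.univ :=
      Finset.eq_univ_iff_forall.mpr hcon
    rw [h1, Finset.card_univ] at hlt
    exact lt_irrefl _ hlt
  refine ⟨fun a => if h : a ∈ U then (g ⟨a, h⟩ : ℕ) else 0, ?_⟩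
  intro c hc i hi
  by_contra hcon
  push Not at hcon
  apply hg
  rw [Finset.mem_biUnion]
  refine ⟨(i, ⟨c, hc⟩), Finset.mem_product.mpr ⟨hi, Finset.mem_univ _⟩, ?_⟩
  rw [Fintype.mem_piFinset]
  rintro ⟨a, ha⟩
  by_cases hai : a ∈ X i
  · rw [if_pos hai, Finset.mem_erase]
    refine ⟨?_, Finset.mem_univ _⟩
    intro h
    apply hcon a hai
    rw [dif_pos ha, h]
  · rw [if_neg hai]
    exact Finset.mem_univ _

end BJY
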