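import Mathlib
import Pool.Agent.Helper4.BJY.Defs

/-!
# Blocks INV1 and INV2: near pairs against far pairs
-/

set_option autoImplicit false

namespace BJY

open Finset

/-- the sum of the weights `w` at `p` and `p + 1`, inside the window -/
def h26_W (w : ℕ → ℕ) (r L p : ℕ) : ℕ := w (r + p) + if p + 1 < L then w (r + (p + 1)) else 0

theorem h26_near_eq (z w : ℕ → ℕ) (r L : ℕ) :
    nearS z w r L = ∑ p ∈ range L, z (r + p) * h26_W w r L p := by
  rw [nearS]
  apply sum_congr rfl
  intro p hp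
  rw [mem_range] at hp
  have h1 : ∀ q ∈ range L, (if p ≤ q ∧ q ≤ p + 1 then z (r + p) * w (r + q) else 0) =
      (if q = p then z (r + p) * w (r + q) else 0) +
        (if q = p + 1 then z (r + p) * w (r + q) else 0) := by
    intro q _
    by_cases h2 : q = p
    · subst h2
      rw [if_pos (by omega), if_pos rfl, if_neg (by omega), add_zero]
    · by_cases h3 : q = p + 1
      · rw [if_pos (by omega), if_neg (by omega), if_pos h3, zero_add]
      · rw [if_neg (by omega), if_neg h2, if_neg h3]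
  rw [sum_congr rfl h1, sum_add_distrib, sum_ite_eq', sum_ite_eq', if_pos (mem_range.mpr hp),
    h26_W, mul_add]
  congr 1
  by_cases h4 : p + 1 < L
  · rw [if_pos (mem_range.mpr h4), if_pos h4]
  · rw [if_neg (by rw [mem_range]; exact h4), if_neg h4, mul_zero]

theorem h26_W_le (b : ℕ) (w : ℕ → ℕ) (r L : ℕ) (hw : ∀ p < L, w (r + p) ≤ b) (p : ℕ)
    (hp : p < L) : h26_W w r L p ≤ 2 * b := by
  rw [h26_W]
  have h1 := hw p hp
  split_ifs with h
  · have h2 := hw (p + 1) h
    omega
  · omega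

/-- the far sum with `W` in place of `w` -/
theorem h26_far_W (z w : ℕ → ℕ) (r L : ℕ) :
    ∑ p ∈ range L, ∑ q ∈ range L, (if p + 2 ≤ q then z (r + p) * h26_W w r L q else 0) ≤
      2 * farS z w r L := by
  rw [farS, mul_sum]
  apply sum_le_sum
  intro p _
  have h1 : ∀ q ∈ range L, (if p + 2 ≤ q then z (r + p) * h26_W w r L q else 0) ≤
      (if p + 2 ≤ q then z (r + p) * w (r + q) else 0) +
        (if q + 1 < L ∧ p + 2 ≤ q + 1 then z (r + p) * w (r + (q + 1)) else 0) := by
    intro q _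
    by_cases h2 : p + 2 ≤ q
    · rw [if_pos h2, if_pos h2, h26_W, mul_add]
      by_cases h3 : q + 1 < L
      · rw [if_pos h3, if_pos ⟨h3, by omega⟩]
      · rw [if_neg h3, mul_zero]
        omega
    · rw [if_neg h2]
      exact Nat.zero_le _
  refine (sum_le_sum h1).trans ?_
  rw [sum_add_distrib, two_mul]
  apply Nat.add_le_add_left
  -- the shifted sum
  have h4 : ∑ q ∈ range L, (if q + 1 < L ∧ p + 2 ≤ q + 1 then z (r + p) * w (r + (q + 1)) else 0) =
      ∑ q ∈ range (L - 1), (if p + 2 ≤ q + 1 then z (r + p) * w (r + (q + 1)) else 0) := by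
    symm
    apply sum_subset_zero_on_sdiff
    · intro q hq
      rw [mem_range] at hq ⊢
      omega
    · intro q hq
      rw [mem_sdiff, mem_range, mem_range] at hq
      rw [if_neg (by omega)]
    · intro q hq
      rw [mem_range] at hq
      by_cases h5 : p + 2 ≤ q + 1
      · rw [if_pos h5, if_pos ⟨by omega, h5⟩]
      · rw [if_neg h5, if_neg (by tauto)]
  rw [h4]
  rcases Nat.eq_zero_or_pos L with hL | hL
  · subst hL
    simp
  · obtain ⟨M, rfl⟩ : ∃ M, L = M + 1 := ⟨L - 1, by omega⟩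
    rw [Nat.add_sub_cancel, sum_range_succ' (fun q => if p + 2 ≤ q then z (r + p) * w (r + q) else 0)]
    exact Nat.le_add_right _ _

theorem h26_near_sq (b : ℕ) (z w : ℕ → ℕ) (r L : ℕ) (hz : ∀ p < L, z (r + p) ≤ b)
    (hw : ∀ p < L, w (r + p) ≤ b) :
    nearS z w r L * nearS z w r L ≤ 6 * b ^ 2 * nearS z w r L + 8 * b ^ 2 * farS z w r L := by
  set a : ℕ → ℕ := fun p => z (r + p) * h26_W w r L p with ha
  have hN : nearS z w r L = ∑ p ∈ range L, a p := h26_near_eq z w r L
  have key : ∀ p ∈ range L, ∀ q ∈ range L, a p * a q ≤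
      2 * b ^ 2 * (if p + 2 ≤ q then z (r + p) * h26_W w r L q else 0) +
      2 * b ^ 2 * (if q + 2 ≤ p then z (r + q) * h26_W w r L p else 0) +
      2 * b ^ 2 * (if p ≤ q + 1 ∧ q ≤ p + 1 then a p else 0) := by
    intro p hp q hq
    rw [mem_range] at hp hq
    have hWp := h26_W_le b w r L hw p hp
    have hWq := h26_W_le b w r L hw q hq
    have hzp := hz p hp
    have hzq := hz q hq
    by_cases h1 : p + 2 ≤ q
    · rw [if_pos h1, if_neg (by omega), if_neg (by omega), mul_zero, add_zero, add_zero]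
      have h2 : a p * a q = (z (r + q) * h26_W w r L p) * (z (r + p) * h26_W w r L q) := by
        simp only [ha]
        ring
      rw [h2]
      apply Nat.mul_le_mul_right
      calc z (r + q) * h26_W w r L p ≤ b * (2 * b) := Nat.mul_le_mul hzq hWp
        _ = 2 * b ^ 2 := by ring
    · by_cases h3 : q + 2 ≤ p
      · rw [if_neg h1, if_pos h3, if_neg (by omega), mul_zero, add_zero, zero_add]
        have h2 : a p * a q = (z (r + p) * h26_W w r L q) * (z (r + q) * h26_W w r L p) := by
          simp only [ha]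
          ring
        rw [h2]
        apply Nat.mul_le_mul_right
        calc z (r + p) * h26_W w r L q ≤ b * (2 * b) := Nat.mul_le_mul hzp hWq
          _ = 2 * b ^ 2 := by ring
      · rw [if_neg h1, if_neg h3, if_pos (by omega), mul_zero, zero_add, zero_add,
          mul_comm (a p)]
        apply Nat.mul_le_mul_right
        calc a q ≤ b * (2 * b) := Nat.mul_le_mul hzq hWq
          _ = 2 * b ^ 2 := by ring
  have h3 : ∑ p ∈ range L, ∑ q ∈ range L, (if p ≤ q + 1 ∧ q ≤ p + 1 then a p else 0) ≤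
      3 * ∑ p ∈ range L, a p := by
    rw [mul_sum]
    apply sum_le_sum
    intro p _
    rw [← sum_filter, sum_const, smul_eq_mul]
    apply Nat.mul_le_mul_right
    have h4 : (range L).filter (fun q => p ≤ q + 1 ∧ q ≤ p + 1) ⊆ Icc (p - 1) (p + 1) := by
      intro q hq
      rw [mem_filter] at hq
      rw [mem_Icc]
      omega
    refine (card_le_card h4).trans ?_
    rw [Nat.card_Icc]
    omega
  have h5 := h26_far_W z w r L
  have h6 : ∑ p ∈ range L, ∑ q ∈ range L, (if q + 2 ≤ p then z (r + q) * h26_W w r L p else 0) ≤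
      2 * farS z w r L := by
    rw [sum_comm]
    exact h5
  rw [hN]
  calc (∑ p ∈ range L, a p) * (∑ p ∈ range L, a p)
      = ∑ p ∈ range L, ∑ q ∈ range L, a p * a q := by rw [sum_mul_sum]
    _ ≤ ∑ p ∈ range L, ∑ q ∈ range L,
        (2 * b ^ 2 * (if p + 2 ≤ q then z (r + p) * h26_W w r L q else 0) +
        2 * b ^ 2 * (if q + 2 ≤ p then z (r + q) * h26_W w r L p else 0) +
        2 * b ^ 2 * (if p ≤ q + 1 ∧ q ≤ p + 1 then a p else 0)) :=
        sum_le_sum fun p hp => sum_le_sum fun q hq => key p hp q hq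
    _ = 2 * b ^ 2 * (∑ p ∈ range L, ∑ q ∈ range L,
          (if p + 2 ≤ q then z (r + p) * h26_W w r L q else 0)) +
        2 * b ^ 2 * (∑ p ∈ range L, ∑ q ∈ range L,
          (if q + 2 ≤ p then z (r + q) * h26_W w r L p else 0)) +
        2 * b ^ 2 * (∑ p ∈ range L, ∑ q ∈ range L, (if p ≤ q + 1 ∧ q ≤ p + 1 then a p else 0)) := by
        simp only [sum_add_distrib, mul_sum]
    _ ≤ 2 * b ^ 2 * (2 * farS z w r L) + 2 * b ^ 2 * (2 * farS z w r L) +
        2 * b ^ 2 * (3 * ∑ p ∈ range L, a p) := by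
        gcongr
    _ = 6 * b ^ 2 * (∑ p ∈ range L, a p) + 8 * b ^ 2 * farS z w r L := by ring

theorem near_far (b : ℕ) (z w : ℕ → ℕ) (r L : ℕ) (hz : ∀ p < L, z (r + p) ≤ b)
    (hw : ∀ p < L, w (r + p) ≤ b) :
    4 * nearS z w r L ≤ farS z w r L + 128 * b ^ 2 := by
  have h := h26_near_sq b z w r L hz hw
  by_contra hcon
  push Not at hcon
  set N := nearS z w r L with hN
  set F := farS z w r L with hF
  have h1 : 32 * b ^ 2 < N := by omega
  have h2 : F + 128 * b ^ 2 < 4 * N := hcon
  nlinarith [h, h1, h2, Nat.zero_le F, Nat.zero_le (b ^ 2)]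

theorem far_ge (b : ℕ) (z w : ℕ → ℕ) (r L : ℕ) (hzw : ∀ p < L, z (r + p) + w (r + p) = b)
    (hz : b ≤ 2 * z r) (hw : b ≤ 2 * w (r + (L - 1))) :
    b * b * (L - 4) ≤ 2 * farS z w r L := by
  rcases Nat.lt_or_ge L 5 with hL | hL
  · have : L - 4 = 0 := by omega
    rw [this, mul_zero]
    exact Nat.zero_le _
  set F : ℕ → ℕ := fun p => ∑ q ∈ range L, if p + 2 ≤ q then z (r + p) * w (r + q) else 0 with hF
  have h1 : F 0 + ∑ j ∈ Ico 2 (L - 2), F j ≤ farS z w r L := by
    have h2 : (0 : ℕ) ∉ Ico 2 (L - 2) := by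
      rw [mem_Ico]
      omega
    rw [← sum_insert h2]
    apply sum_le_sum_of_subset
    intro j hj
    rw [mem_insert, mem_Ico] at hj
    rw [mem_range]
    omega
  have h3 : ∑ j ∈ Ico 2 (L - 2), z r * w (r + j) ≤ F 0 := by
    have h4 : ∀ j ∈ Ico 2 (L - 2), z r * w (r + j) =
        if 0 + 2 ≤ j then z (r + 0) * w (r + j) else 0 := by
      intro j hj
      rw [mem_Ico] at hj
      rw [if_pos (by omega), add_zero]
    rw [sum_congr rfl h4]
    apply sum_le_sum_of_subset
    intro j hj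
    rw [mem_Ico] at hj
    rw [mem_range]
    omega
  have h5 : ∀ j ∈ Ico 2 (L - 2), z (r + j) * w (r + (L - 1)) ≤ F j := by
    intro j hj
    rw [mem_Ico] at hj
    have h6 : z (r + j) * w (r + (L - 1)) =
        if j + 2 ≤ L - 1 then z (r + j) * w (r + (L - 1)) else 0 := by
      rw [if_pos (by omega)]
    rw [h6]
    exact single_le_sum (f := fun q => if j + 2 ≤ q then z (r + j) * w (r + q) else 0)
      (fun _ _ => Nat.zero_le _) (mem_range.mpr (by omega : L - 1 < L))
  have h7 : ∑ j ∈ Ico 2 (L - 2), (z r * w (r + j) + z (r + j) * w (r + (L - 1))) ≤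
      farS z w r L := by
    rw [sum_add_distrib]
    exact (Nat.add_le_add h3 (sum_le_sum h5)).trans h1
  have h8 : ∑ _j ∈ Ico 2 (L - 2), b * b ≤
      ∑ j ∈ Ico 2 (L - 2), 2 * (z r * w (r + j) + z (r + j) * w (r + (L - 1))) := by
    apply sum_le_sum
    intro j hj
    rw [mem_Ico] at hj
    have h9 := hzw j (by omega)
    calc b * b = b * (z (r + j) + w (r + j)) := by rw [h9]
      _ = b * w (r + j) + z (r + j) * b := by ring
      _ ≤ (2 * z r) * w (r + j) + z (r + j) * (2 * w (r + (L - 1))) :=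
          Nat.add_le_add (Nat.mul_le_mul_right _ hz) (Nat.mul_le_mul_left _ hw)
      _ = 2 * (z r * w (r + j) + z (r + j) * w (r + (L - 1))) := by ring
  rw [sum_const, Nat.card_Ico, smul_eq_mul, ← mul_sum] at h8
  calc b * b * (L - 4) = (L - 2 - 2) * (b * b) := by
        rw [mul_comm]
        congr 1
    _ ≤ _ := h8
    _ ≤ _ := Nat.mul_le_mul_left 2 h7

end BJY
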